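import Mathlib

set_option autoImplicit false

open MeasureTheory ProbabilityTheory Finset

namespace Pool.Agent.Results.MP_856808_pr.BoundaryTight

/-- The equispaced design on `[0,1]`: the `i`-th point (counting from `0`) is `i / (n - 1)`. -/
noncomputable def design (n i : ℕ) : ℝ := (i : ℝ) / ((n : ℝ) - 1)

/-- The slope of the vector `θ` between the design points number `i` and `i + 1`
(counting from `0`). -/
noncomputable def slope (n : ℕ) (θ : Fin n → ℝ) (i : ℕ) (hi : i + 1 < n) : ℝ :=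
  (θ ⟨i + 1, hi⟩ - θ ⟨i, Nat.lt_of_succ_lt hi⟩) / (design n (i + 1) - design n i)

/-- The closed convex cone `K_n` of the vectors whose consecutive slopes are nondecreasing. -/
def cone (n : ℕ) : Set (Fin n → ℝ) :=
  {θ | ∀ (i j : ℕ) (hi : i + 1 < n) (hj : j + 1 < n), i ≤ j → slope n θ i hi ≤ slope n θ j hj}

/-- `θ` is a convex least squares estimator for the data `Y`: it lies in `K_n` and minimises
the residual sum of squares over `K_n`. -/
def IsConvexLSE (n : ℕ) (Y θ : Fin n → ℝ) : Prop :=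
  θ ∈ cone n ∧ ∀ θ' ∈ cone n, ∑ i, (Y i - θ i) ^ 2 ≤ ∑ i, (Y i - θ' i) ^ 2

/-! ### Deterministic part -/

lemma slope_eq {n : ℕ} (hn : 2 ≤ n) (θ : Fin n → ℝ) (i : ℕ) (hi : i + 1 < n) :
    slope n θ i hi = (θ ⟨i + 1, hi⟩ - θ ⟨i, Nat.lt_of_succ_lt hi⟩) * ((n : ℝ) - 1) := by
  have h1 : (0 : ℝ) < (n : ℝ) - 1 := by
    have : (2 : ℝ) ≤ n := by exact_mod_cast hn
    linarith
  unfold slope design
  have : ((i + 1 : ℕ) : ℝ) / ((n : ℝ) - 1) - (i : ℝ) / ((n : ℝ) - 1) = 1 / ((n : ℝ) - 1) := by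
    push_cast
    ring
  rw [this]
  field_simp

/-- Second-difference description of the cone. -/
lemma mem_cone_iff {n : ℕ} (hn : 2 ≤ n) (θ : Fin n → ℝ) :
    θ ∈ cone n ↔ ∀ (i : ℕ) (hi : i + 2 < n),
      0 ≤ θ ⟨i + 2, hi⟩ - 2 * θ ⟨i + 1, by omega⟩ + θ ⟨i, by omega⟩ := by
  have h1 : (0 : ℝ) < (n : ℝ) - 1 := by
    have : (2 : ℝ) ≤ n := by exact_mod_cast hn
    linarith
  constructor
  · intro h i hi
    have := h i (i + 1) (by omega) (by omega) (by omega)
    rw [slope_eq hn, slope_eq hn] at this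
    have := le_of_mul_le_mul_right this h1
    linarith
  · intro h i j hi hj hij
    induction j, hij using Nat.le_induction with
    | base => exact le_refl _
    | succ j hij ih =>
      refine (ih (by omega)).trans ?_
      rw [slope_eq hn, slope_eq hn]
      have := h j (by omega)
      refine mul_le_mul_of_nonneg_right ?_ h1.le
      linarith

/-- First order condition for a least squares estimator along a feasible direction. -/
lemma first_order {n : ℕ} {Y θ : Fin n → ℝ} (h : IsConvexLSE n Y θ) (v : Fin n → ℝ) (s₀ : ℝ)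
    (hs₀ : 0 < s₀) (hv : ∀ s, 0 < s → s ≤ s₀ → (fun i => θ i + s * v i) ∈ cone n) :
    ∑ i, (Y i - θ i) * v i ≤ 0 := by
  by_contra hc
  push Not at hc
  set c := ∑ i, (Y i - θ i) * v i with hcdef
  set q := ∑ i, v i ^ 2 with hq
  have hq0 : 0 ≤ q := Finset.sum_nonneg fun i _ => sq_nonneg _
  set s := min s₀ (c / (q + 1)) with hs
  have hspos : 0 < s := lt_min hs₀ (by positivity)
  have h1 := h.2 _ (hv s hspos (min_le_left _ _))
  have h2 : ∑ i, (Y i - (θ i + s * v i)) ^ 2
      = ∑ i, (Y i - θ i) ^ 2 - 2 * s * c + s ^ 2 * q := by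
    rw [hcdef, hq, Finset.mul_sum, Finset.mul_sum, ← Finset.sum_sub_distrib,
      ← Finset.sum_add_distrib]
    refine Finset.sum_congr rfl fun i _ => ?_
    ring
  rw [h2] at h1
  have h3 : 2 * c ≤ s * q := by
    have : s * (2 * c) ≤ s * (s * q) := by nlinarith
    exact le_of_mul_le_mul_left this hspos
  have h4 : s * (q + 1) ≤ c := by
    have : s ≤ c / (q + 1) := min_le_right _ _
    rwa [le_div_iff₀ (by positivity)] at this
  nlinarith

/-- The hinge direction `i ↦ (k - i)₊`. -/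
noncomputable def hinge (n k : ℕ) : Fin n → ℝ := fun i => ((k - (i : ℕ) : ℕ) : ℝ)

lemma hinge_second_diff (k i : ℕ) :
    ((k - (i + 2) : ℕ) : ℝ) - 2 * ((k - (i + 1) : ℕ) : ℝ) + ((k - i : ℕ) : ℝ)
      = if k = i + 1 then 1 else 0 := by
  split_ifs with h
  · subst h
    have h1 : i + 1 - (i + 2) = 0 := by omega
    have h2 : i + 1 - (i + 1) = 0 := by omega
    have h3 : i + 1 - i = 1 := by omega
    rw [h1, h2, h3]
    norm_num
  · rcases lt_or_gt_of_ne h with h' | h'
    · have h1 : k - (i + 2) = 0 := by omega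
      have h2 : k - (i + 1) = 0 := by omega
      have h3 : k - i = 0 := by omega
      rw [h1, h2, h3]
      norm_num
    · obtain ⟨m, rfl⟩ : ∃ m, k = i + 2 + m := ⟨k - (i + 2), by omega⟩
      have h1 : i + 2 + m - (i + 2) = m := by omega
      have h2 : i + 2 + m - (i + 1) = m + 1 := by omega
      have h3 : i + 2 + m - i = m + 2 := by omega
      rw [h1, h2, h3]
      push_cast
      ring

/-- Adding a nonnegative multiple of a hinge keeps us in the cone. -/
lemma hinge_nonpos {n : ℕ} (hn : 2 ≤ n) {Y θ : Fin n → ℝ} (h : IsConvexLSE n Y θ) (k : ℕ) :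
    ∑ i, (Y i - θ i) * hinge n k i ≤ 0 := by
  refine first_order h _ 1 one_pos fun s hs _ => ?_
  rw [mem_cone_iff hn]
  intro i hi
  have h1 := (mem_cone_iff hn θ).1 h.1 i hi
  have h2 := hinge_second_diff k i
  simp only [hinge]
  have h3 : (0 : ℝ) ≤ (if k = i + 1 then (1 : ℝ) else 0) := by split_ifs <;> norm_num
  rw [← h2] at h3
  nlinarith [mul_nonneg hs.le h3]

/-- Subtracting a small multiple of a hinge at a kink (or at the last point) keeps us in
the cone. -/
lemma hinge_nonneg {n : ℕ} (hn : 2 ≤ n) {Y θ : Fin n → ℝ} (h : IsConvexLSE n Y θ) (k : ℕ)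
    (hk : ∀ (i : ℕ) (hi : i + 2 < n), k = i + 1 →
      0 < θ ⟨i + 2, hi⟩ - 2 * θ ⟨i + 1, by omega⟩ + θ ⟨i, by omega⟩) :
    0 ≤ ∑ i, (Y i - θ i) * hinge n k i := by
  obtain ⟨s₀, hs₀, hs⟩ : ∃ s₀ : ℝ, 0 < s₀ ∧ ∀ (i : ℕ) (hi : i + 2 < n), k = i + 1 →
      s₀ ≤ θ ⟨i + 2, hi⟩ - 2 * θ ⟨i + 1, by omega⟩ + θ ⟨i, by omega⟩ := by
    by_cases hex : ∃ i, ∃ _ : i + 2 < n, k = i + 1
    · obtain ⟨i, hi, hki⟩ := hex
      refine ⟨_, hk i hi hki, ?_⟩
      intro j hj hkj
      have : i = j := by omega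
      subst this
      exact le_refl _
    · refine ⟨1, one_pos, fun i hi hki => (hex ⟨i, hi, hki⟩).elim⟩
  have h0 : ∑ i, (Y i - θ i) * (- hinge n k i) ≤ 0 := by
    refine first_order h _ s₀ hs₀ fun s hs1 hs2 => ?_
    rw [mem_cone_iff hn]
    intro i hi
    have h1 := (mem_cone_iff hn θ).1 h.1 i hi
    have h2 := hinge_second_diff k i
    simp only [hinge]
    split_ifs at h2 with hki
    · have h3 := hs i hi hki
      nlinarith
    · have : θ ⟨i + 2, hi⟩ + s * -((k - (i + 2) : ℕ) : ℝ)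
          - 2 * (θ ⟨i + 1, by omega⟩ + s * -((k - (i + 1) : ℕ) : ℝ))
          + (θ ⟨i, by omega⟩ + s * -((k - i : ℕ) : ℝ))
          = (θ ⟨i + 2, hi⟩ - 2 * θ ⟨i + 1, by omega⟩ + θ ⟨i, by omega⟩)
            - s * (((k - (i + 2) : ℕ) : ℝ) - 2 * ((k - (i + 1) : ℕ) : ℝ)
              + ((k - i : ℕ) : ℝ)) := by ring
      rw [this, h2]
      linarith
  have : ∑ i, (Y i - θ i) * (- hinge n k i) = - ∑ i, (Y i - θ i) * hinge n k i := by
    rw [← Finset.sum_neg_distrib]
    refine Finset.sum_congr rfl fun i _ => by ring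
  linarith

/-- Extension of a vector by zero to a sequence. -/
noncomputable def ext0 {n : ℕ} (Y : Fin n → ℝ) : ℕ → ℝ := fun m => if h : m < n then Y ⟨m, h⟩ else 0

lemma sum_hinge_range (y : ℕ → ℝ) (k : ℕ) :
    ∑ m ∈ range k, y m * ((k - m : ℕ) : ℝ) = ∑ j ∈ range (k + 1), ∑ m ∈ range j, y m := by
  induction k with
  | zero => simp
  | succ k ih =>
    rw [Finset.sum_range_succ (n := k + 1), ← ih]
    have h1 : ∑ m ∈ range (k + 1), y m * ((k + 1 - m : ℕ) : ℝ)
        = ∑ m ∈ range (k + 1), (y m * ((k - m : ℕ) : ℝ) + y m) := by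
      refine Finset.sum_congr rfl fun m hm => ?_
      have hm' : m ≤ k := by
        have := Finset.mem_range.1 hm
        omega
      have : k + 1 - m = (k - m) + 1 := by omega
      rw [this]
      push_cast
      ring
    rw [h1, Finset.sum_add_distrib, Finset.sum_range_succ (n := k)]
    simp

lemma sum_fin_hinge {n : ℕ} (Y : Fin n → ℝ) (k : ℕ) (hk : k ≤ n) :
    ∑ i, Y i * hinge n k i = ∑ j ∈ range (k + 1), ∑ m ∈ range j, ext0 Y m := by
  rw [← sum_hinge_range]
  have h1 : ∑ i : Fin n, Y i * hinge n k i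
      = ∑ i : Fin n, (fun m : ℕ => ext0 Y m * ((k - m : ℕ) : ℝ)) i := by
    refine Finset.sum_congr rfl fun i _ => ?_
    simp [ext0, hinge]
  rw [h1, Fin.sum_univ_eq_sum_range (fun m : ℕ => ext0 Y m * ((k - m : ℕ) : ℝ)) n]
  symm
  refine Finset.sum_subset (fun x hx => ?_) fun x _ hx => ?_
  · simp only [Finset.mem_range] at *
    omega
  · simp only [Finset.mem_range, not_lt] at hx
    have : k - x = 0 := by omega
    simp [this]

lemma sum_lin (a b : ℝ) (j : ℕ) :
    ∑ m ∈ range j, (a - b * (m : ℝ)) = a * j - b * (j * (j - 1)) / 2 := by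
  induction j with
  | zero => simp
  | succ j ih =>
    rw [Finset.sum_range_succ, ih]
    push_cast
    ring

lemma sum_sum_lin (a b : ℝ) (k : ℕ) :
    ∑ j ∈ range (k + 1), ∑ m ∈ range j, (a - b * (m : ℝ))
      = a * (k * (k + 1)) / 2 - b * ((k - 1) * k * (k + 1)) / 6 := by
  induction k with
  | zero => simp
  | succ k ih =>
    rw [Finset.sum_range_succ, ih, sum_lin]
    push_cast
    ring

lemma sum_bound (B : ℝ) (k : ℕ) :
    ∑ j ∈ range (k + 1), B * (j : ℝ) = B * (k * (k + 1)) / 2 := by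
  induction k with
  | zero => simp
  | succ k ih =>
    rw [Finset.sum_range_succ, ih]
    push_cast
    ring

/-- **Deterministic bound.** If all the averages of the first `j` observations are at most `B` in
absolute value, then the convex least squares estimator at the left boundary is at most `5 B` in
absolute value. -/
theorem abs_lse_zero_le {n : ℕ} (hn : 2 ≤ n) {Y θ : Fin n → ℝ} (h : IsConvexLSE n Y θ)
    (B : ℝ) (hB0 : 0 ≤ B) (hB : ∀ j ≤ n, |∑ m ∈ range j, ext0 Y m| ≤ B * j) :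
    |θ ⟨0, by omega⟩| ≤ 5 * B := by
  classical
  -- first kink
  have hex : ∃ k, 1 ≤ k ∧ (k = n - 1 ∨ ∃ (i : ℕ) (hi : i + 2 < n), k = i + 1 ∧
      0 < θ ⟨i + 2, hi⟩ - 2 * θ ⟨i + 1, by omega⟩ + θ ⟨i, by omega⟩) :=
    ⟨n - 1, by omega, Or.inl rfl⟩
  obtain ⟨hk1, hk2⟩ := Nat.find_spec hex
  have hkmin : ∀ m < Nat.find hex, ¬ _ := fun m hm => Nat.find_min hex hm
  set k := Nat.find hex with hkdef
  have hkn : k ≤ n - 1 := Nat.find_le ⟨by omega, Or.inl rfl⟩
  -- linearity before the kink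
  set a := θ ⟨0, by omega⟩ with ha
  set b := θ ⟨0, by omega⟩ - θ ⟨1, by omega⟩ with hb
  have hdiff : ∀ i, ∀ hi : i + 1 ≤ k, θ ⟨i + 1, by omega⟩ - θ ⟨i, by omega⟩ = -b := by
    intro i
    induction i with
    | zero => intro _; simp [hb]
    | succ i ih =>
      intro hi
      have h1 := ih (by omega)
      have h2 := (mem_cone_iff hn θ).1 h.1 i (by omega)
      have h3 := hkmin (i + 1) (by omega)
      have h4 : ¬ 0 < θ ⟨i + 2, by omega⟩ - 2 * θ ⟨i + 1, by omega⟩ + θ ⟨i, by omega⟩ := by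
        intro h5
        exact h3 ⟨by omega, Or.inr ⟨i, by omega, rfl, h5⟩⟩
      have h6 : θ ⟨i + 2, by omega⟩ - 2 * θ ⟨i + 1, by omega⟩ + θ ⟨i, by omega⟩ = 0 :=
        le_antisymm (not_lt.1 h4) h2
      have h7 : θ ⟨i + 1 + 1, by omega⟩ = θ ⟨i + 2, by omega⟩ := rfl
      rw [h7]
      linarith
  have hlin : ∀ i, ∀ hi : i ≤ k, θ ⟨i, by omega⟩ = a - b * i := by
    intro i
    induction i with
    | zero => intro _; simp [ha]
    | succ i ih =>
      intro hi
      have h1 := ih (by omega)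
      have h2 := hdiff i hi
      push_cast
      linarith
  have hext : ∀ i, i ≤ k → ext0 θ i = a - b * i := by
    intro i hi
    have h1 : i < n := by omega
    simp only [ext0, h1, dif_pos]
    exact hlin i hi
  -- the three relations
  have hS0 : ∀ k', k' ≤ n → ∑ i, (Y i - θ i) * hinge n k' i
      = ∑ j ∈ range (k' + 1), ∑ m ∈ range j, ext0 Y m
        - ∑ j ∈ range (k' + 1), ∑ m ∈ range j, ext0 θ m := by
    intro k' hk'
    rw [← sum_fin_hinge Y k' hk', ← sum_fin_hinge θ k' hk', ← Finset.sum_sub_distrib]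
    refine Finset.sum_congr rfl fun i _ => by ring
  have hSk : ∑ j ∈ range (k + 1), ∑ m ∈ range j, ext0 Y m
      = ∑ j ∈ range (k + 1), ∑ m ∈ range j, ext0 θ m := by
    have h1 := hinge_nonpos hn h k
    have h2 := hinge_nonneg hn h k (by
      intro i hi hki
      rcases hk2 with h3 | ⟨i', hi', hki', h4⟩
      · omega
      · have : i' = i := by omega
        subst this
        exact h4)
    rw [hS0 k (by omega)] at h1 h2
    linarith
  have hSk1 : ∑ m ∈ range (k + 1), ext0 Y m ≤ ∑ m ∈ range (k + 1), ext0 θ m := by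
    have h1 := hinge_nonpos hn h (k + 1)
    rw [hS0 (k + 1) (by omega), Finset.sum_range_succ, Finset.sum_range_succ _ (k + 1), hSk] at h1
    linarith
  have hθ1 : ∑ j ∈ range (k + 1), ∑ m ∈ range j, ext0 θ m
      = a * (k * (k + 1)) / 2 - b * ((k - 1) * k * (k + 1)) / 6 := by
    rw [← sum_sum_lin]
    refine Finset.sum_congr rfl fun j hj => Finset.sum_congr rfl fun m hm => ?_
    have := Finset.mem_range.1 hj
    have := Finset.mem_range.1 hm
    exact hext m (by omega)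
  have hθ2 : ∑ m ∈ range (k + 1), ext0 θ m = a * (k + 1) - b * ((k + 1) * k) / 2 := by
    have h1 := sum_lin a b (k + 1)
    push_cast at h1
    rw [show ∑ m ∈ range (k + 1), ext0 θ m = ∑ m ∈ range (k + 1), (a - b * (m : ℝ)) from
      Finset.sum_congr rfl fun m hm => hext m (by have := Finset.mem_range.1 hm; omega), h1]
    ring
  -- bounds from B
  have hY1 : ∑ j ∈ range (k + 1), ∑ m ∈ range j, ext0 Y m ≤ B * (k * (k + 1)) / 2 := by
    rw [← sum_bound]
    refine Finset.sum_le_sum fun j hj => ?_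
    have := Finset.mem_range.1 hj
    exact (le_abs_self _).trans (hB j (by omega))
  have hY2 : -(B * (k + 1)) ≤ ∑ m ∈ range (k + 1), ext0 Y m := by
    have := neg_le_of_abs_le (hB (k + 1) (by omega))
    push_cast at this
    linarith
  have hY0 : -B ≤ a := by
    have h1 := hinge_nonpos hn h 1
    rw [hS0 1 (by omega)] at h1
    simp [Finset.sum_range_succ, ext0, show 0 < n by omega] at h1
    have h2 := neg_le_of_abs_le (hB 1 (by omega))
    simp [ext0, show 0 < n by omega] at h2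
    linarith
  have hkpos : (1 : ℝ) ≤ k := by exact_mod_cast hk1
  have e1 : a - b * (k - 1) / 3 ≤ B := by
    rw [hSk, hθ1] at hY1
    have h1 : (a - b * (k - 1) / 3) * ((k : ℝ) * (k + 1)) ≤ B * (k * (k + 1)) := by nlinarith
    exact le_of_mul_le_mul_right h1 (by positivity)
  have e2 : -B ≤ a - b * k / 2 := by
    rw [hθ2] at hSk1
    have h1 : -B * ((k : ℝ) + 1) ≤ (a - b * k / 2) * ((k : ℝ) + 1) := by nlinarith
    exact le_of_mul_le_mul_right h1 (by positivity)
  rw [abs_le]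
  refine ⟨by linarith, ?_⟩
  by_contra hc
  push Not at hc
  have hb0 : 0 ≤ b * (k - 1) := by nlinarith
  rcases eq_or_lt_of_le hkpos with hk' | hk'
  · rw [← hk'] at e1
    nlinarith
  · have hb1 : 0 ≤ b := by
      by_contra hb1
      push Not at hb1
      nlinarith
    nlinarith

/-! ### Existence and uniqueness of the estimator (not used below; it shows that the
main theorem is not vacuous) -/

theorem existsUnique_isConvexLSE {n : ℕ} (hn : 2 ≤ n) (Y : Fin n → ℝ) :
    ∃! θ, IsConvexLSE n Y θ := by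
  classical
  set C : Set (EuclideanSpace ℝ (Fin n)) := {x | (fun i => x i) ∈ cone n} with hC
  have hCcl : IsClosed C := by
    have : C = ⋂ (i : ℕ) (hi : i + 2 < n), {x : EuclideanSpace ℝ (Fin n) |
        0 ≤ x ⟨i + 2, hi⟩ - 2 * x ⟨i + 1, by omega⟩ + x ⟨i, by omega⟩} := by
      ext x
      simp only [hC, Set.mem_ofPred_eq, Set.mem_iInter]
      exact mem_cone_iff hn _
    rw [this]
    refine isClosed_iInter fun i => isClosed_iInter fun hi => ?_
    exact isClosed_le continuous_const (by fun_prop)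
  have hCne : C.Nonempty := by
    refine ⟨0, ?_⟩
    simp only [hC, Set.mem_ofPred_eq]
    rw [mem_cone_iff hn]
    intro i hi
    simp
  obtain ⟨y, hy, hmin⟩ := hCcl.exists_infDist_eq_dist hCne (WithLp.toLp 2 Y)
  have hLSE : IsConvexLSE n Y (fun i => y i) := by
    refine ⟨hy, fun θ' hθ' => ?_⟩
    have h1 : dist (WithLp.toLp 2 Y) y ≤ dist (WithLp.toLp 2 Y) (WithLp.toLp 2 θ') := by
      rw [← hmin]
      exact Metric.infDist_le_dist_of_mem hθ'
    rw [EuclideanSpace.dist_eq, EuclideanSpace.dist_eq,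
      Real.sqrt_le_sqrt_iff (Finset.sum_nonneg fun i _ => sq_nonneg _)] at h1
    simpa [Real.dist_eq, sq_abs] using h1
  refine ⟨_, hLSE, fun θ hθ => ?_⟩
  set θ₁ : Fin n → ℝ := fun i => y i with hθ₁
  have hmid : (fun i => (θ i + θ₁ i) / 2) ∈ cone n := by
    rw [mem_cone_iff hn]
    intro i hi
    have h1 := (mem_cone_iff hn θ).1 hθ.1 i hi
    have h2 := (mem_cone_iff hn θ₁).1 hLSE.1 i hi
    linarith
  have h1 := hθ.2 _ hmid
  have h2 := hLSE.2 _ hmid
  have h3 : ∑ i, (Y i - (θ i + θ₁ i) / 2) ^ 2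
      = (1 / 2) * ∑ i, (Y i - θ i) ^ 2 + (1 / 2) * ∑ i, (Y i - θ₁ i) ^ 2
        - (1 / 4) * ∑ i, (θ i - θ₁ i) ^ 2 := by
    rw [Finset.mul_sum, Finset.mul_sum, Finset.mul_sum, ← Finset.sum_add_distrib,
      ← Finset.sum_sub_distrib]
    refine Finset.sum_congr rfl fun i _ => by ring
  have h4 : ∑ i, (θ i - θ₁ i) ^ 2 ≤ 0 := by
    rw [h3] at h1 h2
    linarith
  have h5 : ∑ i, (θ i - θ₁ i) ^ 2 = 0 := le_antisymm h4 (Finset.sum_nonneg fun i _ => sq_nonneg _)
  rw [Finset.sum_eq_zero_iff_of_nonneg (fun i _ => sq_nonneg _)] at h5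
  funext i
  have := h5 i (Finset.mem_univ i)
  have := pow_eq_zero_iff (two_ne_zero) |>.1 this
  linarith

/-! ### Probabilistic part -/

lemma subgaussian_of_hasLaw {Ω : Type*} {mΩ : MeasurableSpace Ω} {P : Measure Ω}
    {X : Ω → ℝ} {v : NNReal} (hX : HasLaw X (gaussianReal 0 v) P) :
    HasSubgaussianMGF X v P := by
  rw [← HasSubgaussianMGF.id_map_iff hX.aemeasurable, hX.map_eq]
  refine ⟨fun t => integrable_exp_mul_gaussianReal t, fun t => ?_⟩
  rw [mgf_id_gaussianReal]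
  simp

/-- The first `j` indices. -/
def headSet (n j : ℕ) : Finset (Fin n) := Finset.univ.filter (fun i : Fin n => (i : ℕ) < j)

lemma sum_ext0_eq {n : ℕ} (Y : Fin n → ℝ) (j : ℕ) (hj : j ≤ n) :
    ∑ m ∈ range j, ext0 Y m = ∑ i ∈ headSet n j, Y i := by
  rw [headSet, Finset.sum_filter]
  have h1 : ∑ i : Fin n, (if (i : ℕ) < j then Y i else 0)
      = ∑ i : Fin n, (fun m : ℕ => if m < j then ext0 Y m else 0) i := by
    refine Finset.sum_congr rfl fun i _ => ?_
    simp [ext0]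
  rw [h1, Fin.sum_univ_eq_sum_range (fun m : ℕ => if m < j then ext0 Y m else 0) n,
    ← Finset.sum_filter]
  refine Finset.sum_congr ?_ fun _ _ => rfl
  ext m
  simp only [Finset.mem_range, Finset.mem_filter]
  omega

lemma card_filter_lt {n : ℕ} (j : ℕ) (hj : j ≤ n) :
    (headSet n j).card = j := by
  have h := sum_ext0_eq (n := n) (fun _ => (1 : ℝ)) j hj
  have h1 : ∑ m ∈ range j, ext0 (fun _ : Fin n => (1 : ℝ)) m = j := by
    rw [Finset.sum_congr rfl (g := fun _ => (1 : ℝ))]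
    · simp
    · intro m hm
      have : m < n := lt_of_lt_of_le (Finset.mem_range.1 hm) hj
      simp [ext0, this]
  rw [h1] at h
  simp at h
  exact_mod_cast h.symm

/-- One-sided tail bound for a partial sum. -/
lemma tail_one {n : ℕ} {Ω : Type*} {mΩ : MeasurableSpace Ω} {P : Measure Ω}
    [IsProbabilityMeasure P] {ε : Fin n → Ω → ℝ} {σ : NNReal} (hσ : 0 < σ)
    (hind : iIndepFun ε P) (hlaw : ∀ i, HasSubgaussianMGF (ε i) (σ ^ 2) P)
    (c : ℝ) (hc : 0 ≤ c) (j : ℕ) (hj1 : 1 ≤ j) (hj : j ≤ n) :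
    P.real {ω | c * j ≤ ∑ m ∈ range j, ext0 (fun i => ε i ω) m}
      ≤ Real.exp (-c ^ 2 / (2 * σ ^ 2)) ^ j := by
  have h := HasSubgaussianMGF.measure_sum_ge_le_of_iIndepFun hind
    (s := headSet n j)
    (c := fun _ => σ ^ 2) (fun i _ => hlaw i) (ε := c * j) (by positivity)
  simp_rw [sum_ext0_eq _ j hj]
  refine h.trans (le_of_eq ?_)
  rw [← Real.exp_nat_mul]
  congr 1
  rw [Finset.sum_const, card_filter_lt j hj]
  have hj0 : (j : ℝ) ≠ 0 := by positivity
  have hσ0 : (σ : ℝ) ≠ 0 := by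
    have : (0 : ℝ) < σ := by exact_mod_cast hσ
    exact this.ne'
  rw [nsmul_eq_mul]
  push_cast
  field_simp

lemma tail_two {n : ℕ} {Ω : Type*} {mΩ : MeasurableSpace Ω} {P : Measure Ω}
    [IsProbabilityMeasure P] {ε : Fin n → Ω → ℝ} {σ : NNReal} (hσ : 0 < σ)
    (hind : iIndepFun ε P) (hlaw : ∀ i, HasSubgaussianMGF (ε i) (σ ^ 2) P)
    (c : ℝ) (hc : 0 ≤ c) (j : ℕ) (hj1 : 1 ≤ j) (hj : j ≤ n) :
    P.real {ω | c * j ≤ |∑ m ∈ range j, ext0 (fun i => ε i ω) m|}
      ≤ 2 * Real.exp (-c ^ 2 / (2 * σ ^ 2)) ^ j := by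
  have h1 := tail_one hσ hind hlaw c hc j hj1 hj
  have hind' : iIndepFun (fun i => - ε i) P := by
    have := hind.comp (fun _ x => -x) (fun _ => measurable_neg)
    exact this
  have h2 := tail_one hσ hind' (fun i => (hlaw i).neg) c hc j hj1 hj
  have hsub : {ω | c * j ≤ |∑ m ∈ range j, ext0 (fun i => ε i ω) m|}
      ⊆ {ω | c * j ≤ ∑ m ∈ range j, ext0 (fun i => ε i ω) m}
        ∪ {ω | c * j ≤ ∑ m ∈ range j, ext0 (fun i => (- ε i) ω) m} := by
    intro ω hω
    simp only [Set.mem_ofPred_eq, Set.mem_union] at *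
    rcases le_abs.1 hω with h | h
    · exact Or.inl h
    · right
      refine h.trans (le_of_eq ?_)
      rw [← Finset.sum_neg_distrib]
      refine Finset.sum_congr rfl fun m _ => ?_
      simp only [ext0]
      split_ifs <;> simp
  calc P.real {ω | c * j ≤ |∑ m ∈ range j, ext0 (fun i => ε i ω) m|}
      ≤ P.real ({ω | c * j ≤ ∑ m ∈ range j, ext0 (fun i => ε i ω) m}
        ∪ {ω | c * j ≤ ∑ m ∈ range j, ext0 (fun i => (- ε i) ω) m}) := measureReal_mono hsub
    _ ≤ _ := measureReal_union_le _ _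
    _ ≤ _ := by linarith

/-- Union bound over all partial sums. -/
lemma tail_all {n : ℕ} {Ω : Type*} {mΩ : MeasurableSpace Ω} {P : Measure Ω}
    [IsProbabilityMeasure P] {ε : Fin n → Ω → ℝ} {σ : NNReal} (hσ : 0 < σ)
    (hind : iIndepFun ε P) (hlaw : ∀ i, HasSubgaussianMGF (ε i) (σ ^ 2) P)
    (c : ℝ) (hc : 0 ≤ c) (q : ℝ) (hq : q = Real.exp (-c ^ 2 / (2 * σ ^ 2))) (hq2 : q ≤ 1 / 2) :
    P.real {ω | ∃ j, 1 ≤ j ∧ j ≤ n ∧ c * j ≤ |∑ m ∈ range j, ext0 (fun i => ε i ω) m|}
      ≤ 4 * q := by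
  have hsub : {ω | ∃ j, 1 ≤ j ∧ j ≤ n ∧ c * j ≤ |∑ m ∈ range j, ext0 (fun i => ε i ω) m|}
      ⊆ ⋃ j ∈ Finset.Icc 1 n, {ω | c * j ≤ |∑ m ∈ range j, ext0 (fun i => ε i ω) m|} := by
    intro ω hω
    obtain ⟨j, hj1, hj2, hj3⟩ := hω
    simp only [Set.mem_iUnion, Finset.mem_Icc]
    exact ⟨j, ⟨hj1, hj2⟩, hj3⟩
  have hq0 : 0 < q := by rw [hq]; exact Real.exp_pos _
  have hgeom : ∀ N : ℕ, ∑ j ∈ Finset.Icc 1 N, q ^ j ≤ 2 * q := by
    intro N
    have h1 : ∑ j ∈ Finset.Icc 1 N, q ^ j = q * ∑ j ∈ range N, q ^ j := by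
      induction N with
      | zero => simp
      | succ N ih =>
        rw [Finset.sum_Icc_succ_top (by omega), Finset.sum_range_succ, ih]
        ring
    rw [h1]
    have h2 : ∑ j ∈ range N, q ^ j ≤ 2 := by
      rw [geom_sum_eq (by linarith)]
      rw [div_le_iff_of_neg (by linarith)]
      have : 0 < q ^ N := by positivity
      linarith
    nlinarith
  calc P.real {ω | ∃ j, 1 ≤ j ∧ j ≤ n ∧ c * j ≤ |∑ m ∈ range j, ext0 (fun i => ε i ω) m|}
      ≤ P.real (⋃ j ∈ Finset.Icc 1 n,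
          {ω | c * j ≤ |∑ m ∈ range j, ext0 (fun i => ε i ω) m|}) :=
        measureReal_mono hsub (measure_ne_top _ _)
    _ ≤ ∑ j ∈ Finset.Icc 1 n, P.real {ω | c * j ≤ |∑ m ∈ range j, ext0 (fun i => ε i ω) m|} :=
        measureReal_biUnion_finset_le _ _
    _ ≤ ∑ j ∈ Finset.Icc 1 n, 2 * q ^ j := by
        refine Finset.sum_le_sum fun j hj => ?_
        rw [Finset.mem_Icc] at hj
        rw [hq]
        exact tail_two hσ hind hlaw c hc j hj.1 hj.2
    _ = 2 * ∑ j ∈ Finset.Icc 1 n, q ^ j := by rw [Finset.mul_sum]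
    _ ≤ 2 * (2 * q) := by
        have := hgeom n
        linarith
    _ = 4 * q := by ring

/-- **Boundary tightness of the convex least squares estimator.** -/
theorem result (f : ℝ → ℝ) (hf : ContinuousOn f (Set.Icc 0 1)) (_hconv : ConvexOn ℝ (Set.Icc 0 1) f)
    (σ : NNReal) (hσ : 0 < σ) :
    ∀ η : ℝ, 0 < η → ∃ M : ℝ, ∀ (n : ℕ) (hn : 3 ≤ n)
      (Ω : Type*) (mΩ : MeasurableSpace Ω) (P : Measure Ω) (_ : IsProbabilityMeasure P)
      (ε : Fin n → Ω → ℝ), iIndepFun ε P → (∀ i, HasLaw (ε i) (gaussianReal 0 (σ ^ 2)) P) →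
      ∀ θhat : Ω → Fin n → ℝ,
        (∀ ω, IsConvexLSE n (fun i => f (design n i) + ε i ω) (θhat ω)) →
        P {ω | M < |θhat ω ⟨0, (Nat.succ_pos 2).trans_le hn⟩|} < ENNReal.ofReal η := by
  intro η hη
  -- bound for `f`
  obtain ⟨F, hF⟩ := isCompact_Icc.exists_bound_of_continuousOn hf
  have hF0 : 0 ≤ F := (norm_nonneg _).trans (hF 0 (by simp))
  -- choice of `c`
  set δ : ℝ := min (1 / 2) (η / 8) with hδ
  have hδ0 : 0 < δ := lt_min (by norm_num) (by linarith)
  have hδ1 : δ ≤ 1 / 2 := min_le_left _ _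
  have hσ' : (0 : ℝ) < σ := by exact_mod_cast hσ
  set c : ℝ := Real.sqrt (2 * σ ^ 2 * Real.log (1 / δ)) with hc
  have hlog : 0 ≤ Real.log (1 / δ) := Real.log_nonneg (by
    rw [le_div_iff₀ hδ0]
    linarith)
  have hc2 : c ^ 2 = 2 * σ ^ 2 * Real.log (1 / δ) := Real.sq_sqrt (by positivity)
  have hq : δ = Real.exp (-c ^ 2 / (2 * σ ^ 2)) := by
    rw [hc2]
    have : -(2 * (σ : ℝ) ^ 2 * Real.log (1 / δ)) / (2 * (σ : ℝ) ^ 2) = Real.log δ := by
      rw [Real.log_div one_ne_zero hδ0.ne', Real.log_one]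
      field_simp
      ring
    rw [this, Real.exp_log hδ0]
  refine ⟨5 * (F + c), ?_⟩
  intro n hn Ω mΩ P _ ε hind hlaw θhat hθ
  have hbad := tail_all hσ hind (fun i => subgaussian_of_hasLaw (hlaw i)) c (Real.sqrt_nonneg _)
    δ hq hδ1
  set A : Set Ω :=
    {ω | ∃ j, 1 ≤ j ∧ j ≤ n ∧ c * j ≤ |∑ m ∈ range j, ext0 (fun i => ε i ω) m|} with hA
  have hsub : {ω | 5 * (F + c) < |θhat ω ⟨0, (Nat.succ_pos 2).trans_le hn⟩|} ⊆ A := by
    intro ω hω
    by_contra hωA
    have hsmall : ∀ j, 1 ≤ j → j ≤ n →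
        |∑ m ∈ range j, ext0 (fun i => ε i ω) m| < c * j := by
      intro j hj1 hj2
      by_contra hcon
      exact hωA ⟨j, hj1, hj2, not_lt.1 hcon⟩
    have hB : ∀ j ≤ n, |∑ m ∈ range j,
        ext0 (fun i : Fin n => f (design n i) + ε i ω) m| ≤ (F + c) * j := by
      intro j hj
      rcases Nat.eq_zero_or_pos j with rfl | hj0
      · simp
      · have h1 : ∑ m ∈ range j, ext0 (fun i : Fin n => f (design n i) + ε i ω) m
            = ∑ m ∈ range j, ext0 (fun i : Fin n => f (design n i)) m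
              + ∑ m ∈ range j, ext0 (fun i => ε i ω) m := by
          rw [← Finset.sum_add_distrib]
          refine Finset.sum_congr rfl fun m _ => ?_
          simp only [ext0]
          split_ifs <;> simp
        have h2 : |∑ m ∈ range j, ext0 (fun i : Fin n => f (design n i)) m| ≤ F * j := by
          refine (Finset.abs_sum_le_sum_abs _ _).trans ?_
          have : ∀ m ∈ range j, |ext0 (fun i : Fin n => f (design n i)) m| ≤ F := by
            intro m hm
            have hmn : m < n := lt_of_lt_of_le (Finset.mem_range.1 hm) hj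
            simp only [ext0, hmn, dif_pos]
            refine hF _ ?_
            have hn1 : (0 : ℝ) < (n : ℝ) - 1 := by
              have : (3 : ℝ) ≤ n := by exact_mod_cast hn
              linarith
            simp only [design, Set.mem_Icc]
            refine ⟨by positivity, ?_⟩
            rw [div_le_one hn1]
            have : (m : ℝ) + 1 ≤ n := by exact_mod_cast hmn
            linarith
          refine (Finset.sum_le_card_nsmul _ _ _ this).trans ?_
          simp [mul_comm]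
        rw [h1]
        refine (abs_add_le _ _).trans ?_
        have h3 := (hsmall j hj0 hj).le
        linarith
    have := abs_lse_zero_le (by omega) (hθ ω) (F + c)
      (add_nonneg hF0 (Real.sqrt_nonneg _)) hB
    exact absurd this (not_le.2 hω)
  have h1 : P A ≤ ENNReal.ofReal (4 * δ) := by
    rw [← ENNReal.ofReal_toReal (measure_ne_top P A)]
    exact ENNReal.ofReal_le_ofReal hbad
  refine (measure_mono hsub).trans_lt (h1.trans_lt ?_)
  rw [ENNReal.ofReal_lt_ofReal_iff hη]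
  have : δ ≤ η / 8 := min_le_right _ _
  linarith

end Pool.Agent.Results.MP_856808_pr.BoundaryTight
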